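import Pool.Agent.KACR.Stmts

namespace Pool.Agent.KACR.H25

open Set Filter Topology

theorem per_deriv {k : ℝ → ℝ} {L : ℝ} (h : Function.Periodic k L) :
    Function.Periodic (deriv k) L := by
  intro x
  have h1 : (fun y => k (y + L)) = k := funext h
  have h2 := deriv_comp_add_const (f := k) (a := L) (x := x)
  rw [h1] at h2
  exact h2.symm

theorem sameJet_shift {L : ℝ} {k k' : ℝ → ℝ} (hk' : Gen L k') {s t : ℝ} (n : ℤ)
    (h : SameJet k k' s t) : SameJet k k' s (t + n * L) := by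
  have hp : Function.Periodic k' L := hk'.per
  have h0 := (hp.int_mul n) t
  have h1 := ((per_deriv hp).int_mul n) t
  have h2 := ((per_deriv (per_deriv hp)).int_mul n) t
  refine ⟨?_, ?_, ?_⟩
  · rw [h0]; exact h.1
  · rw [h1]; exact h.2.1
  · rw [h2]; exact h.2.2

theorem sameJet_Icc {L : ℝ} {k k' : ℝ → ℝ} (hk' : Gen L k') {s t : ℝ}
    (h : SameJet k k' s t) : ∃ t', t' ∈ Icc (0 : ℝ) L ∧ SameJet k k' s t' := by
  have hL := hk'.pos
  refine ⟨t + ((-⌊t / L⌋ : ℤ) : ℝ) * L, ?_, sameJet_shift hk' _ h⟩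
  have h1 : (⌊t / L⌋ : ℝ) ≤ t / L := Int.floor_le _
  have h2 : t / L < ⌊t / L⌋ + 1 := Int.lt_floor_add_one _
  have h3 : (⌊t / L⌋ : ℝ) * L ≤ t := by rwa [le_div_iff₀ hL] at h1
  have h4 : t < (⌊t / L⌋ + 1) * L := by rwa [div_lt_iff₀ hL] at h2
  push_cast
  constructor
  · linarith
  · linarith

theorem cont_k {L : ℝ} {k : ℝ → ℝ} (hk : Gen L k) : Continuous k := hk.smooth.continuous

theorem cont_dk {L : ℝ} {k : ℝ → ℝ} (hk : Gen L k) : Continuous (deriv k) :=
  hk.smooth.continuous_deriv (by exact_mod_cast le_top)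

theorem cont_ddk {L : ℝ} {k : ℝ → ℝ} (hk : Gen L k) : Continuous (deriv (deriv k)) := by
  have h1 : ContDiff ℝ ((⊤ : ℕ∞) : WithTop ℕ∞) (deriv k) :=
    (contDiff_infty_iff_deriv.1 hk.smooth).2
  exact h1.continuous_deriv (by exact_mod_cast le_top)

theorem sameJet_lim {L : ℝ} {k k' : ℝ → ℝ} (hk : Gen L k) (hk' : Gen L k') {r t : ℕ → ℝ}
    {s t' : ℝ} (hr : Tendsto r atTop (𝓝 s)) (ht : Tendsto t atTop (𝓝 t'))
    (h : ∀ n, SameJet k k' (r n) (t n)) : SameJet k k' s t' := by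
  refine ⟨?_, ?_, ?_⟩
  · have h1 : Tendsto (fun n => k' (t n)) atTop (𝓝 (k' t')) :=
      ((cont_k hk').tendsto t').comp ht
    have h2 : Tendsto (fun n => k (r n)) atTop (𝓝 (k s)) :=
      ((cont_k hk).tendsto s).comp hr
    have h3 : (fun n => k' (t n)) = fun n => k (r n) := funext fun n => (h n).1
    rw [h3] at h1
    exact tendsto_nhds_unique h1 h2
  · have h1 : Tendsto (fun n => deriv k' (t n) ^ 2) atTop (𝓝 (deriv k' t' ^ 2)) :=
      (((cont_dk hk').tendsto t').comp ht).pow 2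
    have h2 : Tendsto (fun n => deriv k (r n) ^ 2) atTop (𝓝 (deriv k s ^ 2)) :=
      (((cont_dk hk).tendsto s).comp hr).pow 2
    have h3 : (fun n => deriv k' (t n) ^ 2) = fun n => deriv k (r n) ^ 2 :=
      funext fun n => (h n).2.1
    rw [h3] at h1
    exact tendsto_nhds_unique h1 h2
  · have h1 : Tendsto (fun n => deriv (deriv k') (t n)) atTop (𝓝 (deriv (deriv k') t')) :=
      ((cont_ddk hk').tendsto t').comp ht
    have h2 : Tendsto (fun n => deriv (deriv k) (r n)) atTop (𝓝 (deriv (deriv k) s)) :=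
      ((cont_ddk hk).tendsto s).comp hr
    have h3 : (fun n => deriv (deriv k') (t n)) = fun n => deriv (deriv k) (r n) :=
      funext fun n => (h n).2.2
    rw [h3] at h1
    exact tendsto_nhds_unique h1 h2

theorem jet (bcl : BclStmt) (bco : BcoStmt) (pre : PreStmt) (loc : LocStmt) : JetStmt := by
  intro L k k' hk hk' hyp s
  have hcl : IsClosed (Bad L k ∪ Bad L k') := (bcl L k hk).union (bcl L k' hk')
  have hco : (Bad L k ∪ Bad L k').Countable := (bco L k hk).union (bco L k' hk')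
  have hpre := pre L k hk _ hco
  have hd : Dense ({r | k r ∈ Bad L k ∪ Bad L k'}ᶜ : Set ℝ) := hpre.dense_compl ℝ
  have hgood : ∀ r, k r ∉ Bad L k ∪ Bad L k' → ∃ t', t' ∈ Icc (0 : ℝ) L ∧ SameJet k k' r t' := by
    intro r hr
    have hnhds : (Bad L k ∪ Bad L k')ᶜ ∈ 𝓝 (k r) := hcl.isOpen_compl.mem_nhds hr
    have hev : ∀ᶠ c in 𝓝 (k r), SL k c = SL k' c := by
      filter_upwards [hnhds] with c hc
      apply hyp c
      · by_contra hreg
        exact hc (Or.inl (Or.inl hreg))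
      · by_contra hreg
        exact hc (Or.inr (Or.inl hreg))
    obtain ⟨p', hp'⟩ := loc L k k' hk hk' r hev (fun h => hr (Or.inl h)) (fun h => hr (Or.inr h))
    exact sameJet_Icc hk' hp'
  obtain ⟨r, hrm, hrt⟩ := mem_closure_iff_seq_limit.1 (hd s)
  have hch : ∀ n, ∃ t', t' ∈ Icc (0 : ℝ) L ∧ SameJet k k' (r n) t' := fun n => hgood (r n) (hrm n)
  choose t htm htj using hch
  obtain ⟨t', -, φ, hφ, hlim⟩ := isCompact_Icc.tendsto_subseq htm
  exact ⟨t', sameJet_lim hk hk' (hrt.comp hφ.tendsto_atTop) hlim (fun n => htj (φ n))⟩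

end Pool.Agent.KACR.H25
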